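import Pool.Agent.HP25.LL.C

set_option autoImplicit false

/-! # Almost all integers of every interval have a large partial sum of bounded length -/

namespace Pool.Agent.HP25.LL

open Finset Filter Topology

lemma sum_shift {m : ℕ} {f : ℤ → ℝ} (h : Per m f) (c : ℤ) : ∑ i ∈ range m, f (c + i) = ∑ i ∈ range m, f (i : ℤ) := by
  have step : ∀ c : ℤ, ∑ i ∈ range m, f (c + 1 + i) = ∑ i ∈ range m, f (c + i) := by
    intro c
    have h1 : ∑ i ∈ range (m + 1), f (c + i) = ∑ i ∈ range m, f (c + i) + f (c + m) := sum_range_succ _ _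
    have h2 : ∑ i ∈ range (m + 1), f (c + i) = ∑ i ∈ range m, f (c + ((i + 1 : ℕ) : ℤ)) + f (c + ((0 : ℕ) : ℤ)) :=
      sum_range_succ' (fun i : ℕ => f (c + i)) _
    have h3 : ∑ i ∈ range m, f (c + ((i + 1 : ℕ) : ℤ)) = ∑ i ∈ range m, f (c + 1 + i) := by
      apply sum_congr rfl
      intro i _
      congr 1
      push_cast
      ring
    rw [h3] at h2
    have h4 : f (c + m) = f (c + ((0 : ℕ) : ℤ)) := by
      rw [h c]
      simp
    linarith
  induction c using Int.induction_on with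
  | zero => simp
  | succ k ih => rw [step, ih]
  | pred k ih =>
    rw [← ih, ← step]
    apply sum_congr rfl
    intro i _
    congr 1
    ring

lemma sum_interval {m : ℕ} (hm : 1 ≤ m) {f : ℤ → ℝ} (h : Per m f) (h0 : ∀ t, 0 ≤ f t) (x : ℕ) (hx : m ≤ x) (c : ℤ) :
    ∑ t ∈ Ioc c (c + x), f t ≤ 2 * x * E m f := by
  have h1 : ∑ t ∈ Ioc c (c + x), f t = ∑ i ∈ range x, f (c + 1 + i) := by
    refine sum_bij' (fun t _ => (t - (c + 1)).toNat) (fun i _ => c + 1 + (i : ℤ)) ?_ ?_ ?_ ?_ ?_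
    · intro t ht
      rw [mem_Ioc] at ht
      rw [mem_range]
      omega
    · intro i hi
      rw [mem_range] at hi
      rw [mem_Ioc]
      constructor <;> omega
    · intro t ht
      rw [mem_Ioc] at ht
      have : ((t - (c + 1)).toNat : ℤ) = t - (c + 1) := Int.toNat_of_nonneg (by omega)
      rw [this]
      ring
    · intro i hi
      simp
    · intro t ht
      rw [mem_Ioc] at ht
      have : ((t - (c + 1)).toNat : ℤ) = t - (c + 1) := Int.toNat_of_nonneg (by omega)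
      congr 1
      rw [this]
      ring
  have hg : Per m (fun t => f (c + 1 + t)) := by
    intro t
    show f (c + 1 + (t + m)) = f (c + 1 + t)
    rw [← add_assoc]
    exact h _
  have hEg : E m (fun t => f (c + 1 + t)) = E m f := by
    unfold E
    rw [sum_shift h (c + 1)]
  have h2 := E_mul hg (k := x / m + 1) (Nat.le_add_left 1 _)
  rw [hEg] at h2
  have hmr : (0 : ℝ) < m := by exact_mod_cast hm
  have hE : 0 ≤ E m f := E_nonneg h0
  have h3 : ∑ i ∈ range (m * (x / m + 1)), f (c + 1 + ((i : ℕ) : ℤ)) = (m * (x / m + 1) : ℕ) * E m f := by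
    rw [← h2]
    unfold E
    rw [mul_div_cancel₀]
    exact_mod_cast (by positivity : (m * (x / m + 1) : ℕ) ≠ 0)
  have h4 : x ≤ m * (x / m + 1) := by
    have := Nat.div_add_mod x m
    have := Nat.mod_lt x hm
    rw [Nat.mul_add, mul_one]
    omega
  have h5 : m * (x / m + 1) ≤ 2 * x := by
    have := Nat.div_mul_le_self x m
    rw [Nat.mul_add, mul_one, mul_comm]
    omega
  rw [h1]
  calc ∑ i ∈ range x, f (c + 1 + i) ≤ ∑ i ∈ range (m * (x / m + 1)), f (c + 1 + i) :=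
        sum_le_sum_of_subset_of_nonneg (range_subset_range.2 h4) fun i _ _ => h0 _
    _ = (m * (x / m + 1) : ℕ) * E m f := h3
    _ ≤ 2 * x * E m f := by
        apply mul_le_mul_of_nonneg_right _ hE
        exact_mod_cast h5

lemma prod_small (j₀ : ℕ) (δ : ℝ) (hδ : 0 < δ) : ∃ J : ℕ, ∏ i ∈ range J, (1 - (1 / 30 : ℝ) ^ mm (j₀ + i)) ≤ δ := by
  have h1 := Real.tendsto_sum_range_one_div_nat_succ_atTop
  obtain ⟨M, hM⟩ := (tendsto_atTop.1 h1 (∑ i ∈ range j₀, 1 / ((i : ℝ) + 1) + 30 * Real.log (1 / δ))).exists_forall_of_atTop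
  have h2 := hM (j₀ + M) (by omega)
  refine ⟨M, ?_⟩
  rw [sum_range_add] at h2
  have h3 : 30 * Real.log (1 / δ) ≤ ∑ i ∈ range M, 1 / (((j₀ + i : ℕ) : ℝ) + 1) := by linarith
  have h4 : ∏ i ∈ range M, (1 - (1 / 30 : ℝ) ^ mm (j₀ + i)) ≤ ∏ i ∈ range M, Real.exp (-(1 / 30 * (1 / (((j₀ + i : ℕ) : ℝ) + 1)))) := by
    apply Finset.prod_le_prod
    · intro i _
      have : (1 / 30 : ℝ) ^ mm (j₀ + i) ≤ 1 := pow_le_one₀ (by norm_num) (by norm_num)
      linarith
    · intro i _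
      have h5 := mm_prob (j₀ + i)
      have h6 := Real.add_one_le_exp (-(1 / 30 * (1 / (((j₀ + i : ℕ) : ℝ) + 1))))
      have h7 : 1 / (30 * (((j₀ + i : ℕ) : ℝ) + 1)) = 1 / 30 * (1 / (((j₀ + i : ℕ) : ℝ) + 1)) := by
        rw [one_div_mul_one_div]
      rw [h7] at h5
      linarith
  refine h4.trans ?_
  rw [← Real.exp_sum, sum_neg_distrib, ← mul_sum, ← Real.le_log_iff_exp_le hδ]
  rw [one_div, Real.log_inv] at h3
  linarith

/-- **The law of the iterated logarithm from below, uniformly**: for all integers `t` of every interval of at least `M`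
integers, except a proportion `δ`, there is a partial sum of a length `n₁ ≤ n ≤ n₀` of a size of at least
`(1/60) √(n log log n)`. -/
theorem lil {q : ℕ → ℕ} {y : ℕ → ℤ → ℝ} (h : Sys q y) (n₁ : ℕ) (δ : ℝ) (hδ : 0 < δ) :
    ∃ n₀ M : ℕ, ∀ x : ℕ, M ≤ x → ∀ c : ℤ, ∀ T : Finset ℤ, T ⊆ Ioc c (c + x) →
      (∀ t ∈ T, ∀ n, n₁ ≤ n → 3 ≤ n → n ≤ n₀ → |X y 0 n t| < 1 / 60 * √(n * Real.log (Real.log n))) → (T.card : ℝ) ≤ δ * x := by
  obtain ⟨a0, ha0⟩ : ∃ a0, a0 = max n₁ 3 := ⟨_, rfl⟩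
  have h3 : 3 ≤ a0 := by omega
  obtain ⟨j₀, hj₀⟩ : ∃ j₀ : ℕ, Real.log 3 + Real.log a0 ≤ j₀ := exists_nat_ge _
  obtain ⟨J, hJ⟩ := prod_small j₀ (δ / 2) (by linarith)
  obtain ⟨l, hl, hper, hE⟩ := none_per h (fun i => aa a0 (j₀ + i)) (fun i => mm (j₀ + i)) (fun i => aa a0 (j₀ + i) / mm (j₀ + i) + 1)
    (fun i => rfl) J
  have hE' := hE (fun j => Nat.le_add_left 1 _)
  refine ⟨aa a0 (j₀ + J), Q q (aa a0 (j₀ + 0)) l, fun x hx c T hT hbad => ?_⟩
  have h4 := sum_interval (Q_pos h _ _) hper (ind_nonneg _) x hx c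
  have h5 : (T.card : ℝ) ≤ ∑ t ∈ Ioc c (c + x), ind (NoneLarge y (fun i => aa a0 (j₀ + i)) (fun i => mm (j₀ + i))
      (fun i => aa a0 (j₀ + i) / mm (j₀ + i) + 1) J) t := by
    have h6 : (T.card : ℝ) = ∑ t ∈ T, 1 := by simp
    rw [h6]
    refine le_trans (sum_le_sum ?_) (sum_le_sum_of_subset_of_nonneg hT fun t _ _ => ind_nonneg _ t)
    intro t ht
    have hnone : ∀ J', J' ≤ J → NoneLarge y (fun i => aa a0 (j₀ + i)) (fun i => mm (j₀ + i))
        (fun i => aa a0 (j₀ + i) / mm (j₀ + i) + 1) J' t := by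
      intro J'
      induction J' with
      | zero => intro _; trivial
      | succ J' ih =>
        intro hJ'
        refine ⟨ih (by omega), fun hall => ?_⟩
        obtain ⟨n, g1, g2, g3⟩ := large_of_all y a0 h3 (j₀ + J') (by push_cast; linarith [Nat.cast_nonneg (α := ℝ) J']) t hall
        have g4 : a0 ≤ aa a0 (j₀ + J') := aa_mono a0 (Nat.zero_le _)
        have g5 : aa a0 (j₀ + J' + 1) ≤ aa a0 (j₀ + J) := aa_mono a0 (by omega)
        have := hbad t ht n (by omega) (by omega) (by omega)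
        linarith
    have := hnone J le_rfl
    unfold ind
    rw [if_pos this]
  have h7 : (0 : ℝ) ≤ 2 * x := by positivity
  calc (T.card : ℝ) ≤ 2 * x * E (Q q (aa a0 (j₀ + 0)) l) (ind (NoneLarge y (fun i => aa a0 (j₀ + i)) (fun i => mm (j₀ + i))
        (fun i => aa a0 (j₀ + i) / mm (j₀ + i) + 1) J)) := h5.trans h4
    _ ≤ 2 * x * (δ / 2) := mul_le_mul_of_nonneg_left (hE'.trans hJ) h7
    _ = δ * x := by ring

end Pool.Agent.HP25.LL
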