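import Mathlib

set_option autoImplicit false

/-! # The star discrepancy of angles is at least the mean of the signs of the traces -/

open Finset

namespace Pool.Agent.HP25.LL

/-- The `k`-th prime (`p 0 = 2`). -/
noncomputable def pr (k : ℕ) : ℕ := Nat.nth Nat.Prime k

/-- The angle `x ∈ [0,1]` with `a k = 2 √p_k cos (π x)`. -/
noncomputable def ang (a : ℕ → ℤ) (k : ℕ) : ℝ := Real.arccos ((a k : ℝ) / (2 * √(pr k : ℝ))) / Real.pi

open Classical in
/-- The number of `k < K` for which `(x_k, …, x_{k+s-1})` lies in the box `∏ [u i, v i)`. -/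
noncomputable def cnt (a : ℕ → ℤ) (s K : ℕ) (u v : Fin s → ℝ) : ℕ :=
  #{k ∈ range K | ∀ i : Fin s, u i ≤ ang a (k + i) ∧ ang a (k + i) < v i}

/-- The error `|A(R;K)/K - μ_ST^{[s]}(R)|` for the box `R = ∏ [u i, v i)`. -/
noncomputable def err (a : ℕ → ℤ) (s K : ℕ) (u v : Fin s → ℝ) : ℝ :=
  |(cnt a s K u v : ℝ) / K - ∏ i, ∫ t in (u i)..(v i), 2 * Real.sin (Real.pi * t) ^ 2|

/-- The star discrepancy `D_K^{*,[s]}`. -/
noncomputable def starDisc (a : ℕ → ℤ) (s K : ℕ) : ℝ :=
  sSup {d | ∃ v : Fin s → ℝ, (∀ i, 0 ≤ v i ∧ v i ≤ 1) ∧ d = err a s K (fun _ => 0) v}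

lemma pr_prime (k : ℕ) : (pr k).Prime := Nat.prime_nth_prime k

lemma pr_two (k : ℕ) : (2 : ℝ) ≤ pr k := by exact_mod_cast (pr_prime k).two_le

lemma pr_mono {j k : ℕ} (h : j ≤ k) : pr j ≤ pr k :=
  (Nat.nth_monotone Nat.infinite_setOfPred_prime) h

lemma sqrt_pr_pos (k : ℕ) : 0 < √(pr k : ℝ) := Real.sqrt_pos.2 (by linarith [pr_two k])

lemma ang_nonneg (a : ℕ → ℤ) (k : ℕ) : 0 ≤ ang a k := div_nonneg (Real.arccos_nonneg _) Real.pi_pos.le

lemma ang_pos_iff (a : ℕ → ℤ) (k : ℕ) : ang a k < 1 / 2 ↔ 0 < a k := by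
  have hs := sqrt_pr_pos k
  unfold ang
  rw [div_lt_iff₀ Real.pi_pos]
  have h1 : Real.arccos ((a k : ℝ) / (2 * √(pr k : ℝ))) < 1 / 2 * Real.pi ↔ 0 < (a k : ℝ) / (2 * √(pr k : ℝ)) := by
    rw [← Real.arccos_lt_pi_div_two]
    constructor <;> intro h <;> linarith
  rw [h1]
  constructor
  · intro h
    by_contra hcon
    have : (a k : ℝ) ≤ 0 := by exact_mod_cast (not_lt.1 hcon)
    have := div_nonpos_of_nonpos_of_nonneg this (by positivity : 0 ≤ 2 * √(pr k : ℝ))
    linarith
  · intro h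
    have : (0 : ℝ) < a k := by exact_mod_cast h
    positivity

lemma ang_le_of (a : ℕ → ℤ) (k : ℕ) (h : 0 ≤ a k) : ang a k ≤ 1 / 2 := by
  have hs := sqrt_pr_pos k
  unfold ang
  rw [div_le_iff₀ Real.pi_pos]
  have : Real.arccos ((a k : ℝ) / (2 * √(pr k : ℝ))) ≤ Real.pi / 2 := by
    rw [Real.arccos_le_pi_div_two]
    have : (0 : ℝ) ≤ a k := by exact_mod_cast h
    positivity
  linarith

lemma ang_gap (a : ℕ → ℤ) (k : ℕ) (h : a k < 0) : 1 / 2 + 1 / (2 * Real.pi * √(pr k : ℝ)) ≤ ang a k := by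
  have hpi := Real.pi_pos
  have hs := sqrt_pr_pos k
  unfold ang
  rw [le_div_iff₀ hpi]
  have h1 : (a k : ℝ) ≤ -1 := by
    have : a k ≤ -1 := by omega
    exact_mod_cast this
  set y : ℝ := 1 / (2 * √(pr k : ℝ)) with hy
  have hs1 : 1 ≤ √(pr k : ℝ) := by
    rw [Real.one_le_sqrt]; linarith [pr_two k]
  have hy0 : 0 < y := by positivity
  have hy1 : y ≤ 1 / 2 := by
    rw [hy, div_le_div_iff₀ (by positivity) (by norm_num)]
    linarith
  have h2 : (a k : ℝ) / (2 * √(pr k : ℝ)) ≤ - y := by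
    rw [hy, div_le_iff₀ (by positivity)]
    have : -(1 / (2 * √(pr k : ℝ))) * (2 * √(pr k : ℝ)) = -1 := by field_simp
    rw [this]; exact h1
  have h3 : Real.arccos (-y) ≤ Real.arccos ((a k : ℝ) / (2 * √(pr k : ℝ))) :=
    Real.arccos_le_arccos h2
  have h4 : y ≤ Real.arcsin y := by
    have h5 : Real.sin y ≤ y := Real.sin_le hy0.le
    rw [Real.le_arcsin_iff_sin_le' ⟨by linarith [Real.pi_gt_three], by linarith [Real.pi_gt_three]⟩]
    exact h5
  have h6 : Real.arccos (-y) = Real.pi / 2 + Real.arcsin y := by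
    rw [Real.arccos_neg, Real.arccos_eq_pi_div_two_sub_arcsin]; ring
  have h7 : (1 / 2 + 1 / (2 * Real.pi * √(pr k : ℝ))) * Real.pi = Real.pi / 2 + y := by
    rw [hy]; field_simp
  rw [h7]
  linarith

/-! ### The Sato-Tate measure -/

/-- the distribution function of the Sato-Tate measure -/
noncomputable def stF (v : ℝ) : ℝ := ∫ t in (0 : ℝ)..v, 2 * Real.sin (Real.pi * t) ^ 2

lemma stF_eq (v : ℝ) : stF v = v - Real.sin (2 * Real.pi * v) / (2 * Real.pi) := by
  unfold stF
  have h : ∀ t : ℝ, 2 * Real.sin (Real.pi * t) ^ 2 = 1 - Real.cos (2 * Real.pi * t) := by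
    intro t
    rw [show 2 * Real.pi * t = 2 * (Real.pi * t) by ring, Real.cos_two_mul, Real.sin_sq]
    ring
  simp_rw [h]
  rw [intervalIntegral.integral_sub (by simp) (by apply Continuous.intervalIntegrable; fun_prop)]
  rw [intervalIntegral.integral_comp_mul_left (fun x => Real.cos x) (by positivity)]
  simp
  ring

lemma stF_one : stF 1 = 1 := by
  rw [stF_eq, mul_one, Real.sin_two_pi]
  simp

lemma stF_half : stF (1 / 2) = 1 / 2 := by
  rw [stF_eq, show 2 * Real.pi * (1 / 2) = Real.pi by ring, Real.sin_pi]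
  simp

lemma stF_near (η : ℝ) (h : 0 ≤ η) : |stF (1 / 2 + η) - 1 / 2| ≤ 2 * η := by
  rw [stF_eq]
  have hpi := Real.pi_pos
  have h1 : Real.sin (2 * Real.pi * (1 / 2 + η)) = -Real.sin (2 * Real.pi * η) := by
    rw [show 2 * Real.pi * (1 / 2 + η) = 2 * Real.pi * η + Real.pi by ring, Real.sin_add_pi]
  have h2 : |Real.sin (2 * Real.pi * η)| ≤ 2 * Real.pi * η := by
    have := Real.abs_sin_le_abs (x := 2 * Real.pi * η)
    rwa [abs_of_nonneg (by positivity : 0 ≤ 2 * Real.pi * η)] at this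
  rw [h1]
  have h3 : 1 / 2 + η - -Real.sin (2 * Real.pi * η) / (2 * Real.pi) - 1 / 2 = η + Real.sin (2 * Real.pi * η) / (2 * Real.pi) := by
    ring
  rw [h3]
  refine (abs_add_le _ _).trans ?_
  rw [abs_of_nonneg h, abs_div, abs_of_pos (by positivity : 0 < 2 * Real.pi)]
  have : |Real.sin (2 * Real.pi * η)| / (2 * Real.pi) ≤ η := by
    rw [div_le_iff₀ (by positivity)]
    linarith
  linarith

lemma stF_bounds {v : ℝ} (h0 : 0 ≤ v) (h1 : v ≤ 1) : 0 ≤ stF v ∧ stF v ≤ 1 := by
  have hint : ∀ u v : ℝ, IntervalIntegrable (fun t : ℝ => 2 * Real.sin (Real.pi * t) ^ 2) MeasureTheory.volume u v := by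
    intro u v
    apply Continuous.intervalIntegrable
    fun_prop
  have hn : ∀ u v : ℝ, u ≤ v → 0 ≤ ∫ t in u..v, 2 * Real.sin (Real.pi * t) ^ 2 := fun u v h =>
    intervalIntegral.integral_nonneg h fun t _ => by positivity
  have h2 := intervalIntegral.integral_add_adjacent_intervals (hint 0 v) (hint v 1)
  have h3 := hn 0 v h0
  have h4 := hn v 1 h1
  have h5 := stF_one
  unfold stF at h5 ⊢
  constructor <;> linarith

lemma le_starDisc (a : ℕ → ℤ) (s K : ℕ) (v : Fin s → ℝ) (h : ∀ i, 0 ≤ v i ∧ v i ≤ 1) :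
    err a s K (fun _ => 0) v ≤ starDisc a s K := by
  apply le_csSup
  · refine ⟨1, ?_⟩
    rintro d ⟨w, hw, rfl⟩
    unfold err
    have h1 : (0 : ℝ) ≤ (cnt a s K (fun _ => 0) w : ℝ) / K := by positivity
    have h2 : (cnt a s K (fun _ => 0) w : ℝ) / K ≤ 1 := by
      apply div_le_one_of_le₀ _ (by positivity)
      have : cnt a s K (fun _ => 0) w ≤ K := by
        unfold cnt
        exact (card_filter_le _ _).trans (by simp)
      exact_mod_cast this
    have h3 : 0 ≤ ∏ i, ∫ t in (0 : ℝ)..(w i), 2 * Real.sin (Real.pi * t) ^ 2 :=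
      prod_nonneg fun i _ => (stF_bounds (hw i).1 (hw i).2).1
    have h4 : ∏ i, ∫ t in (0 : ℝ)..(w i), 2 * Real.sin (Real.pi * t) ^ 2 ≤ 1 :=
      prod_le_one (fun i _ => (stF_bounds (hw i).1 (hw i).2).1) fun i _ => (stF_bounds (hw i).1 (hw i).2).2
    rw [abs_le]
    constructor <;> linarith
  · exact ⟨v, h, rfl⟩

/-- the number of the `k < K` with a property -/
lemma first_coord (a : ℕ → ℤ) (s K : ℕ) (hs : 1 ≤ s) (hK : 1 ≤ K) (t : ℝ) (h0 : 0 ≤ t) (h1 : t ≤ 1) :
    |(((range K).filter (fun k : ℕ => ang a k < t)).card : ℝ) - K * stF t| ≤ 2 * (K * starDisc a s K) := by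
  classical
  let i₀ : Fin s := ⟨0, hs⟩
  let w : ℝ → Fin s → ℝ := fun t i => if i = i₀ then t else 1
  have hw : ∀ t : ℝ, 0 ≤ t → t ≤ 1 → ∀ i, 0 ≤ w t i ∧ w t i ≤ 1 := by
    intro t h0 h1 i
    by_cases hi : i = i₀
    · simp only [w, hi, if_true]; exact ⟨h0, h1⟩
    · simp only [w, hi, if_false]; norm_num
  have hprod : ∀ t : ℝ, ∏ i, ∫ t in (0 : ℝ)..(w t i), 2 * Real.sin (Real.pi * t) ^ 2 = stF t := by
    intro t
    rw [← Finset.mul_prod_erase univ _ (mem_univ i₀)]
    have h1 : ∏ i ∈ univ.erase i₀, ∫ t in (0 : ℝ)..(w t i), 2 * Real.sin (Real.pi * t) ^ 2 = 1 := by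
      apply prod_eq_one
      intro i hi
      have : i ≠ i₀ := (mem_erase.1 hi).1
      simp only [w, this, if_false]
      exact stF_one
    rw [h1, mul_one]
    simp [w, stF]
  have hKr : (0 : ℝ) < K := by exact_mod_cast hK
  have key : ∀ t : ℝ, 0 ≤ t → t ≤ 1 → |(cnt a s K (fun _ => 0) (w t) : ℝ) - K * stF t| ≤ K * starDisc a s K := by
    intro t h0 h1
    have h2 := le_starDisc a s K (w t) (hw t h0 h1)
    unfold err at h2
    rw [hprod] at h2
    have h3 : (cnt a s K (fun _ => 0) (w t) : ℝ) - K * stF t = K * ((cnt a s K (fun _ => 0) (w t) : ℝ) / K - stF t) := by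
      field_simp
    rw [h3, abs_mul, abs_of_pos hKr]
    exact mul_le_mul_of_nonneg_left h2 hKr.le
  have k1 := abs_le.1 (key 1 zero_le_one le_rfl)
  have k2 := abs_le.1 (key t h0 h1)
  rw [stF_one, mul_one] at k1
  have hsub1 : cnt a s K (fun _ => 0) (w t) ≤ ((range K).filter (fun k : ℕ => ang a k < t)).card := by
    unfold cnt
    apply card_le_card
    intro k hk
    rw [mem_filter] at hk ⊢
    refine ⟨hk.1, ?_⟩
    have := (hk.2 i₀).2
    simpa [w, i₀] using this
  have hsub2 : ((range K).filter (fun k : ℕ => ang a k < t)).card + cnt a s K (fun _ => 0) (w 1) ≤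
      cnt a s K (fun _ => 0) (w t) + K := by
    have h2 : ((range K).filter (fun k : ℕ => ang a k < t)).card ≤ cnt a s K (fun _ => 0) (w t) +
        ((range K).filter (fun k => ¬ ∀ i : Fin s, (0 : ℝ) ≤ ang a (k + i) ∧ ang a (k + i) < w 1 i)).card := by
      unfold cnt
      refine le_trans (card_le_card ?_) (card_union_le _ _)
      intro k hk
      rw [mem_filter] at hk
      rw [mem_union, mem_filter, mem_filter]
      by_cases hall : ∀ i : Fin s, (0 : ℝ) ≤ ang a (k + i) ∧ ang a (k + i) < w 1 i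
      · left
        refine ⟨hk.1, fun i => ⟨ang_nonneg _ _, ?_⟩⟩
        by_cases hi : i = i₀
        · subst hi
          simpa [w, i₀] using hk.2
        · have := (hall i).2
          simp only [w, hi, if_false] at this ⊢
          exact this
      · right
        exact ⟨hk.1, hall⟩
    have h3 := card_filter_add_card_filter_not (s := range K) (fun k => ∀ i : Fin s, (0 : ℝ) ≤ ang a (k + i) ∧ ang a (k + i) < w 1 i)
    rw [card_range] at h3
    have h4 : cnt a s K (fun _ => 0) (w 1) =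
        ((range K).filter (fun k => ∀ i : Fin s, (0 : ℝ) ≤ ang a (k + i) ∧ ang a (k + i) < w 1 i)).card := by
      unfold cnt
      congr
    omega
  have e1 : (cnt a s K (fun _ => 0) (w t) : ℝ) ≤ ((range K).filter (fun k : ℕ => ang a k < t)).card := by exact_mod_cast hsub1
  have e2 : (((range K).filter (fun k : ℕ => ang a k < t)).card : ℝ) + cnt a s K (fun _ => 0) (w 1) ≤
      cnt a s K (fun _ => 0) (w t) + K := by exact_mod_cast hsub2
  rw [abs_le]
  constructor <;> linarith

/-- **The sum of the signs** is at most `4 K` times the star discrepancy, in every dimension. -/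
theorem sign_sum (a : ℕ → ℤ) (s K : ℕ) (hs : 1 ≤ s) (hK : 1 ≤ K) :
    |∑ k ∈ range K, ((a k).sign : ℝ)| ≤ 4 * (K * starDisc a s K) := by
  classical
  have h1 := first_coord a s K hs hK (1 / 2) (by norm_num) (by norm_num)
  rw [stF_half] at h1
  have e1 : (range K).filter (fun k : ℕ => ang a k < 1 / 2) = (range K).filter (fun k : ℕ => 0 < a k) := by
    apply filter_congr
    intro k _
    exact ang_pos_iff a k
  rw [e1] at h1
  -- the nonnegative traces
  have h2 : |(((range K).filter (fun k : ℕ => 0 ≤ a k)).card : ℝ) - K * (1 / 2)| ≤ 2 * (K * starDisc a s K) := by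
    apply le_of_forall_pos_le_add
    intro ε hε
    have hKr : (0 : ℝ) < K := by exact_mod_cast hK
    have hpi := Real.pi_gt_three
    have hsq := sqrt_pr_pos (K - 1)
    have hs1 : 1 ≤ √(pr (K - 1) : ℝ) := by
      rw [Real.one_le_sqrt]; linarith [pr_two (K - 1)]
    obtain ⟨η, hη⟩ : ∃ η, η = min (1 / (2 * Real.pi * √(pr (K - 1) : ℝ))) (ε / (2 * K)) := ⟨_, rfl⟩
    have hη0 : 0 < η := by
      rw [hη]
      exact lt_min (by positivity) (by positivity)
    have hη1 : η ≤ 1 / (2 * Real.pi * √(pr (K - 1) : ℝ)) := by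
      rw [hη]
      exact min_le_left _ _
    have hη2 : η ≤ ε / (2 * K) := by
      rw [hη]
      exact min_le_right _ _
    have hη3 : η ≤ 1 / 2 := by
      refine hη1.trans ?_
      rw [div_le_div_iff₀ (by positivity) (by norm_num)]
      nlinarith
    have h3 := first_coord a s K hs hK (1 / 2 + η) (by linarith) (by linarith)
    have e2 : (range K).filter (fun k : ℕ => ang a k < 1 / 2 + η) = (range K).filter (fun k : ℕ => 0 ≤ a k) := by
      apply filter_congr
      intro k hk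
      constructor
      · intro h
        by_contra hcon
        have h4 := ang_gap a k (not_le.1 hcon)
        have h5 : 1 / (2 * Real.pi * √(pr (K - 1) : ℝ)) ≤ 1 / (2 * Real.pi * √(pr k : ℝ)) := by
          apply div_le_div_of_nonneg_left (by norm_num) (by have := sqrt_pr_pos k; positivity)
          have : √(pr k : ℝ) ≤ √(pr (K - 1) : ℝ) := by
            apply Real.sqrt_le_sqrt
            exact_mod_cast pr_mono (by have := mem_range.1 hk; omega)
          nlinarith
        linarith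
      · intro h
        have := ang_le_of a k h
        linarith
    rw [e2] at h3
    have h4 := stF_near η hη0.le
    have h5 : (((range K).filter (fun k : ℕ => 0 ≤ a k)).card : ℝ) - K * (1 / 2) =
        ((((range K).filter (fun k : ℕ => 0 ≤ a k)).card : ℝ) - K * stF (1 / 2 + η)) + K * (stF (1 / 2 + η) - 1 / 2) := by ring
    rw [h5]
    refine (abs_add_le _ _).trans ?_
    have h6 : |(K : ℝ) * (stF (1 / 2 + η) - 1 / 2)| ≤ ε := by
      rw [abs_mul, abs_of_pos hKr]
      calc (K : ℝ) * |stF (1 / 2 + η) - 1 / 2| ≤ K * (2 * (ε / (2 * K))) :=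
            mul_le_mul_of_nonneg_left (h4.trans (by linarith)) hKr.le
        _ = ε := by field_simp
    linarith
  have h3 : ∑ k ∈ range K, ((a k).sign : ℝ) = (((range K).filter (fun k : ℕ => 0 < a k)).card : ℝ) +
      ((range K).filter (fun k : ℕ => 0 ≤ a k)).card - K := by
    have h4 : (K : ℝ) = ∑ k ∈ range K, 1 := by simp
    rw [h4, card_filter, card_filter, Nat.cast_sum, Nat.cast_sum, ← sum_add_distrib, ← sum_sub_distrib]
    apply sum_congr rfl
    intro k _
    rcases lt_trichotomy (a k) 0 with h | h | h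
    · rw [Int.sign_eq_neg_one_of_neg h, if_neg (by omega), if_neg (by omega)]
      norm_num
    · rw [h]
      norm_num
    · rw [Int.sign_eq_one_of_pos h, if_pos h, if_pos h.le]
      norm_num
  rw [h3]
  have h4 : (((range K).filter (fun k : ℕ => 0 < a k)).card : ℝ) + ((range K).filter (fun k : ℕ => 0 ≤ a k)).card - K =
      ((((range K).filter (fun k : ℕ => 0 < a k)).card : ℝ) - K * (1 / 2)) +
      ((((range K).filter (fun k : ℕ => 0 ≤ a k)).card : ℝ) - K * (1 / 2)) := by ring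
  rw [h4]
  refine (abs_add_le _ _).trans ?_
  linarith

end Pool.Agent.HP25.LL
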