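import Pool.Agent.HP25.LL.D
import Pool.Agent.HP25.LL.F
import Pool.Agent.W406.TW.Ang

set_option autoImplicit false

/-! # The signs of the traces of the quadratic twists -/

open Finset

namespace Pool.Agent.HP25.LL

open Pool.Agent.W406.TW (ap ap_twist dvd_disc)

/-- the trace of Frobenius of `y² = x³ + A x + B` at the `k`-th prime `p`, and `0` if `p ∣ 2 (4 A³ + 27 B²)` -/
noncomputable def tr (A B : ℤ) (k : ℕ) : ℤ := if (pr k : ℤ) ∣ 2 * (4 * A ^ 3 + 27 * B ^ 2) then 0 else ap A B (pr k)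

/-- the Jacobi symbol as a real function -/
noncomputable def chi (p : ℕ) (t : ℤ) : ℝ := (jacobiSym t p : ℝ)

lemma tr_twist (A B D : ℤ) (k : ℕ) : ((tr (A * D ^ 2) (B * D ^ 3) k).sign : ℝ) = ((tr A B k).sign : ℝ) * chi (pr k) D := by
  have hp := pr_prime k
  unfold tr chi
  by_cases h2 : pr k = 2
  · rw [h2, if_pos (by norm_num), if_pos (by norm_num)]
    simp
  by_cases hD : (pr k : ℤ) ∣ D
  · have h3 : jacobiSym D (pr k) = 0 := by
      by_contra hne
      exact Pool.Agent.W406.TW.not_dvd_of_jac hp hne hD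
    have h4 : (pr k : ℤ) ∣ 2 * (4 * (A * D ^ 2) ^ 3 + 27 * (B * D ^ 3) ^ 2) := by
      have e : 2 * (4 * (A * D ^ 2) ^ 3 + 27 * (B * D ^ 3) ^ 2) = D * (2 * (4 * A ^ 3 + 27 * B ^ 2) * D ^ 5) := by ring
      rw [e]
      exact hD.mul_right _
    rw [h3, if_pos h4]
    simp
  · by_cases hd : (pr k : ℤ) ∣ 2 * (4 * A ^ 3 + 27 * B ^ 2)
    · rw [if_pos hd, if_pos ((dvd_disc A B D hp hD).2 hd)]
      simp
    · rw [if_neg hd, if_neg (fun h => hd ((dvd_disc A B D hp hD).1 h)), ap_twist A B D hp h2]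
      rcases jacobiSym.trichotomy D (pr k) with h | h | h <;> rw [h] <;> simp

lemma chi_vals (p : ℕ) (t : ℤ) : chi p t = 0 ∨ chi p t = 1 ∨ chi p t = -1 := by
  unfold chi
  rcases jacobiSym.trichotomy t p with h | h | h <;> rw [h] <;> simp

lemma chi_per (p : ℕ) : Per p (chi p) := by
  intro t
  unfold chi
  rw [jacobiSym.mod_left (t + p) p, Int.add_emod_right, ← jacobiSym.mod_left]

lemma chi_mean {p : ℕ} (hp : p.Prime) (h2 : p ≠ 2) : E p (chi p) = 0 := by
  have : NeZero p := ⟨hp.ne_zero⟩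
  have h1 : ∑ t ∈ range p, jacobiSym (t : ℤ) p = ∑ x : ZMod p, Pool.Agent.W406.TW.jz p x := by
    refine sum_bij' (fun i _ => (i : ZMod p)) (fun x _ => x.val) (fun i _ => mem_univ _)
      (fun x _ => mem_range.2 (ZMod.val_lt x)) (fun i hi => ?_) (fun x _ => ?_) (fun i _ => ?_)
    · exact ZMod.val_natCast_of_lt (mem_range.1 hi)
    · exact ZMod.natCast_zmod_val x
    · rw [← Pool.Agent.W406.TW.jz_cast]; push_cast; rfl
  have h3 := Pool.Agent.W406.TW.sum_jz (hp.odd_of_ne_two h2) (Pool.Agent.W406.TW.not_square_prime hp)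
  unfold E chi
  have h4 : ∑ t ∈ range p, ((jacobiSym (t : ℤ) p : ℤ) : ℝ) = ((∑ t ∈ range p, jacobiSym (t : ℤ) p : ℤ) : ℝ) := by
    push_cast
    rfl
  rw [h4, h1, h3]
  simp

lemma chi_var {p : ℕ} (hp : p.Prime) (h2 : p ≠ 2) : 2 / 3 ≤ E p (fun t => chi p t ^ 2) := by
  have hp3 : 3 ≤ p := by
    have := hp.two_le
    omega
  have hpr : (3 : ℝ) ≤ p := by exact_mod_cast hp3
  have h1 : ((p : ℝ) - 1) ≤ ∑ t ∈ range p, chi p (t : ℤ) ^ 2 := by
    have h3 : ∑ t ∈ (range p).erase 0, chi p ((t : ℕ) : ℤ) ^ 2 ≤ ∑ t ∈ range p, chi p ((t : ℕ) : ℤ) ^ 2 :=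
      sum_le_sum_of_subset_of_nonneg (erase_subset _ _) fun i _ _ => sq_nonneg _
    have h4 : ∑ t ∈ (range p).erase 0, chi p ((t : ℕ) : ℤ) ^ 2 = ∑ t ∈ (range p).erase 0, (1 : ℝ) := by
      apply sum_congr rfl
      intro t ht
      rw [mem_erase, mem_range] at ht
      have h5 : jacobiSym (t : ℤ) p ≠ 0 := by
        apply jacobiSym.ne_zero
        have : Nat.Coprime t p := (Nat.coprime_comm.1 ((Nat.Prime.coprime_iff_not_dvd hp).2 fun hd =>
          ht.1 (Nat.eq_zero_of_dvd_of_lt hd ht.2)))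
        exact this
      unfold chi
      rcases jacobiSym.trichotomy (t : ℤ) p with h | h | h
      · exact absurd h h5
      · rw [h]; simp
      · rw [h]; simp
    rw [h4, sum_const, card_erase_of_mem (mem_range.2 (by omega)), card_range, nsmul_eq_mul, mul_one, Nat.cast_sub (by omega)] at h3
    simpa using h3
  unfold E
  rw [le_div_iff₀ (by linarith)]
  linarith

/-- the index of the `i`-th nonzero trace -/
noncomputable def ee (A B : ℤ) (i : ℕ) : ℕ := Nat.nth (fun k => tr A B k ≠ 0) i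

open Classical in
/-- the number of the nonzero traces at the first `K` primes -/
noncomputable def nn (A B : ℤ) (K : ℕ) : ℕ := ((range K).filter (fun k : ℕ => tr A B k ≠ 0)).card

lemma pr_strict : StrictMono pr := Nat.nth_strictMono Nat.infinite_setOfPred_prime

section
variable {A B : ℤ} (hinf : {k : ℕ | tr A B k ≠ 0}.Infinite)
include hinf

lemma ee_ne (i : ℕ) : tr A B (ee A B i) ≠ 0 := Nat.nth_mem_of_infinite hinf i

lemma ee_ne_two (i : ℕ) : pr (ee A B i) ≠ 2 := by
  intro h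
  apply ee_ne hinf i
  unfold tr
  rw [h, if_pos]
  norm_num

lemma ee_strict : StrictMono (ee A B) := Nat.nth_strictMono hinf

lemma sys : Sys (fun i => pr (ee A B i)) (fun i t => ((tr A B (ee A B i)).sign : ℝ) * chi (pr (ee A B i)) t) := by
  have hsgn : ∀ i, ((tr A B (ee A B i)).sign : ℝ) = 1 ∨ ((tr A B (ee A B i)).sign : ℝ) = -1 := by
    intro i
    rcases lt_trichotomy (tr A B (ee A B i)) 0 with h | h | h
    · right
      rw [Int.sign_eq_neg_one_of_neg h]; norm_num
    · exact absurd h (ee_ne hinf i)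
    · left
      rw [Int.sign_eq_one_of_pos h]; norm_num
  refine ⟨fun i => (pr_prime _).one_lt.le, fun i j hij => ?_, fun i t => ?_, fun i => ?_, fun i => ?_, fun i t => ?_⟩
  · apply (Nat.coprime_primes (pr_prime _) (pr_prime _)).2
    intro h
    exact hij ((ee_strict hinf).injective (pr_strict.injective h))
  · simp only [chi_per _ t]
  · rw [E_smul, chi_mean (pr_prime _) (ee_ne_two hinf i), mul_zero]
  · have e : (fun t => (((tr A B (ee A B i)).sign : ℝ) * chi (pr (ee A B i)) t) ^ 2) = fun t => chi (pr (ee A B i)) t ^ 2 := by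
      funext t
      rcases hsgn i with h | h <;> rw [h] <;> ring
    rw [e]
    exact chi_var (pr_prime _) (ee_ne_two hinf i)
  · rcases hsgn i with h | h <;> rcases chi_vals (pr (ee A B i)) t with g | g | g <;> rw [h, g] <;> norm_num

lemma nn_ee (n : ℕ) : nn A B (ee A B n) = n := by
  classical
  unfold nn ee
  rw [← Nat.count_eq_card_filter_range]
  exact Nat.count_nth_of_infinite hinf n

lemma sum_ee (D : ℤ) (n : ℕ) : ∑ k ∈ range (ee A B n), ((tr (A * D ^ 2) (B * D ^ 3) k).sign : ℝ) =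
    X (fun i t => ((tr A B (ee A B i)).sign : ℝ) * chi (pr (ee A B i)) t) 0 n D := by
  classical
  unfold X
  simp only [zero_add]
  have h1 : ∑ k ∈ range (ee A B n), ((tr (A * D ^ 2) (B * D ^ 3) k).sign : ℝ) =
      ∑ k ∈ (range (ee A B n)).filter (fun k : ℕ => tr A B k ≠ 0), ((tr A B k).sign : ℝ) * chi (pr k) D := by
    rw [sum_filter]
    apply sum_congr rfl
    intro k _
    rw [tr_twist]
    split_ifs with h
    · rfl
    · push Not at h
      rw [h]
      simp
  rw [h1]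
  refine (sum_bij' (fun i _ => ee A B i) (fun k _ => Nat.count (fun k => tr A B k ≠ 0) k) ?_ ?_ ?_ ?_ ?_).symm
  · intro i hi
    rw [mem_filter, mem_range]
    exact ⟨ee_strict hinf (mem_range.1 hi), ee_ne hinf i⟩
  · intro k hk
    rw [mem_filter, mem_range] at hk
    rw [mem_range]
    have h2 := Nat.count_strict_mono (p := fun k => tr A B k ≠ 0) hk.2 hk.1
    have h3 : Nat.count (fun k => tr A B k ≠ 0) (ee A B n) = n := Nat.count_nth_of_infinite hinf n
    omega
  · intro i _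
    exact Nat.count_nth_of_infinite hinf i
  · intro k hk
    rw [mem_filter] at hk
    exact Nat.nth_count hk.2
  · intro i _
    rfl

/-- **Main theorem**: for all integers `D` of every long interval, except a proportion `δ`, the star discrepancies of all
dimensions are large for one `K` between `K₁` and `K₀`. -/
theorem main (δ : ℝ) (hδ : 0 < δ) (K₁ : ℕ) : ∃ K₀ M : ℕ, ∀ x : ℕ, M ≤ x → ∀ c : ℤ, ∀ T : Finset ℤ, T ⊆ Ioc c (c + x) →
    (∀ D ∈ T, ¬ ∃ K, K₁ ≤ K ∧ K ≤ K₀ ∧ ∀ s : ℕ, 1 ≤ s →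
      1 / 240 * √(nn A B K * Real.log (Real.log (nn A B K))) ≤ K * starDisc (tr (A * D ^ 2) (B * D ^ 3)) s K) →
    (T.card : ℝ) ≤ δ * x := by
  obtain ⟨n₀, M, h⟩ := lil (sys hinf) K₁ δ hδ
  refine ⟨ee A B n₀, M, fun x hx c T hT hbad => h x hx c T hT fun D hD n hn1 hn3 hn0 => ?_⟩
  by_contra hcon
  push Not at hcon
  apply hbad D hD
  have hge : n ≤ ee A B n := (ee_strict hinf).id_le n
  refine ⟨ee A B n, hn1.trans hge, (ee_strict hinf).monotone hn0, fun s hs => ?_⟩
  have h1 := sign_sum (tr (A * D ^ 2) (B * D ^ 3)) s (ee A B n) hs (by omega)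
  rw [sum_ee hinf] at h1
  rw [nn_ee hinf]
  linarith

end

end Pool.Agent.HP25.LL
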